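import Pool.Agent.U36.HV.Base

/-!
Base change of finite adeles.
-/

set_option autoImplicit false
set_option linter.unusedSectionVars false

open IsDedekindDomain NumberField WithZero Polynomial Filter Topology

namespace Pool.Agent.U36.HV

open Pool.Agent.U36.BA

variable (F L : Type) [Field F] [NumberField F] [Field L] [NumberField L] [Algebra F L]

lemma under_tendsto : Tendsto (fun w : HeightOneSpectrum (𝓞 L) => w.under (𝓞 F)) cofinite
    cofinite := by
  refine Filter.Tendsto.cofinite_of_finite_preimage_singleton fun v => ?_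
  have h1 : (v.asIdeal.primesOver (𝓞 L)).Finite := by
    have := v.isPrime
    have hm : v.asIdeal.IsMaximal := v.isMaximal
    exact IsDedekindDomain.primesOver_finite v.asIdeal (𝓞 L)
  refine Set.Finite.of_injOn (f := fun w : HeightOneSpectrum (𝓞 L) => w.asIdeal)
    (t := v.asIdeal.primesOver (𝓞 L)) ?_ ?_ h1
  · rintro w hw
    have hw' : w.under (𝓞 F) = v := hw
    subst hw'
    exact ⟨w.isPrime, ⟨rfl⟩⟩
  · intro w _ w' _ h
    exact HeightOneSpectrum.ext h

lemma phi_int : ∀ᶠ w : HeightOneSpectrum (𝓞 L) in cofinite, Set.MapsTo (phi (F := F) w)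
    ((w.under (𝓞 F)).adicCompletionIntegers F : Set ((w.under (𝓞 F)).adicCompletion F))
    (w.adicCompletionIntegers L : Set (w.adicCompletion L)) :=
  Filter.Eventually.of_forall fun w x hx => by
    obtain ⟨e, he0, he⟩ := phi_val (F := F) w
    have h1 : Valued.v x ≤ 1 := hx
    change Valued.v (phi w x) ≤ 1
    rw [he]
    exact pow_le_one₀ zero_le h1

/-- the map of finite adeles -/
noncomputable def beta : FiniteAdeleRing (𝓞 F) F →+* FiniteAdeleRing (𝓞 L) L :=
  RestrictedProduct.mapAlongRingHom
    (fun v : HeightOneSpectrum (𝓞 F) => v.adicCompletion F)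
    (fun w : HeightOneSpectrum (𝓞 L) => w.adicCompletion L)
    (fun w : HeightOneSpectrum (𝓞 L) => w.under (𝓞 F)) (under_tendsto F L) (fun w => phi w)
    (phi_int F L)

lemma beta_apply (x : FiniteAdeleRing (𝓞 F) F) (w : HeightOneSpectrum (𝓞 L)) :
    beta F L x w = phi w (x (w.under (𝓞 F))) := rfl

lemma beta_cont : Continuous (beta F L) :=
  RestrictedProduct.mapAlong_continuous _ _ _ (under_tendsto F L) _ (phi_int F L) fun w => phi_cont w

lemma beta_alg (a : F) : beta F L (algebraMap F _ a) = algebraMap L _ (algebraMap F L a) := by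
  apply FiniteAdeleRing.ext
  intro w
  rw [beta_apply]
  exact phi_alg w a

end Pool.Agent.U36.HV
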