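import Pool.Agent.U36.CM.Main
import Pool.Agent.U36.SC.Loc

/-!
Base change of completions and of finite adeles.
-/

set_option autoImplicit false
set_option linter.unusedSectionVars false

open IsDedekindDomain NumberField WithZero Polynomial Filter Topology

namespace Pool.Agent.U36.HV

open Pool.Agent.U36.BA

variable {F L : Type} [Field F] [NumberField F] [Field L] [NumberField L] [Algebra F L]

lemma phi_unif (w : HeightOneSpectrum (𝓞 L)) :
    UniformContinuous (algebraMap (WithVal ((w.under (𝓞 F)).valuation F))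
      (WithVal (w.valuation L))) := by
  have hl : w.asIdeal.LiesOver (w.under (𝓞 F)).asIdeal := ⟨rfl⟩
  exact HeightOneSpectrum.uniformContinuous_algebraMap_liesOver F L (w.under (𝓞 F)) w

/-- the map of completions -/
noncomputable def phi (w : HeightOneSpectrum (𝓞 L)) :
    (w.under (𝓞 F)).adicCompletion F →+* w.adicCompletion L :=
  ((HeightOneSpectrum.adicCompletion.equiv L w).symm.toRingHom.comp
    (UniformSpace.Completion.mapRingHom (algebraMap (WithVal ((w.under (𝓞 F)).valuation F))
      (WithVal (w.valuation L))) (phi_unif w).continuous)).comp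
        (HeightOneSpectrum.adicCompletion.equiv F (w.under (𝓞 F))).toRingHom

lemma phi_alg (w : HeightOneSpectrum (𝓞 L)) (a : F) :
    phi (F := F) w (algebraMap F ((w.under (𝓞 F)).adicCompletion F) a) = algebraMap L (w.adicCompletion L) (algebraMap F L a) := by
  apply HeightOneSpectrum.adicCompletion.ext
  exact UniformSpace.Completion.mapRingHom_coe (phi_unif w).continuous (WithVal.toVal _ a)

lemma phi_cont (w : HeightOneSpectrum (𝓞 L)) : Continuous (phi (F := F) w) := by
  refine (HeightOneSpectrum.adicCompletion.continuous_ofCompletion L w).comp ?_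
  refine UniformSpace.Completion.continuous_map.comp ?_
  exact (HeightOneSpectrum.adicCompletion.isUniformInducing_toCompletion F _).uniformContinuous.continuous

lemma val_near {K : Type} [Field K] [NumberField K] (v : HeightOneSpectrum (𝓞 K))
    {x y : v.adicCompletion K} (h : Valued.v (y - x) < Valued.v x) : Valued.v y = Valued.v x := by
  have e : y = x + (y - x) := by ring
  rw [e]
  exact Valuation.map_add_eq_of_lt_left _ h

lemma isOpen_ball {K : Type} [Field K] [NumberField K] (v : HeightOneSpectrum (𝓞 K))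
    (x : v.adicCompletion K) {γ : ℤᵐ⁰} (hγ : γ ≠ 0) :
    IsOpen {y : v.adicCompletion K | Valued.v (y - x) < γ} := by
  rw [isOpen_iff_mem_nhds]
  intro y hy
  obtain ⟨c, hc⟩ := HeightOneSpectrum.valuedAdicCompletion_surjective (R := 𝓞 K) (K := K) v γ
  have hc0 : Valued.v c ≠ 0 := by rw [hc]; exact hγ
  rw [Valued.mem_nhds]
  refine ⟨Units.mk0 (Valued.v.restrict c) (by simpa using hc0), ?_⟩
  intro z hz
  rw [Set.mem_ofPred_eq, Units.val_mk0, Valuation.restrict_lt_iff, hc] at hz
  have e : z - x = (z - y) + (y - x) := by ring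
  rw [Set.mem_ofPred_eq, e]
  exact Valuation.map_add_lt _ hz hy

lemma phi_val (w : HeightOneSpectrum (𝓞 L)) : ∃ e : ℕ, e ≠ 0 ∧
    ∀ x : (w.under (𝓞 F)).adicCompletion F, Valued.v (phi w x) = Valued.v x ^ e := by
  obtain ⟨e, he0, he⟩ := Pool.Agent.U36.SC.under_pow (K := F) w
  refine ⟨e, he0, fun x => ?_⟩
  by_cases hx : x = 0
  · rw [hx, map_zero, map_zero, map_zero, zero_pow he0]
  have hx1 : Valued.v x ≠ 0 := (Valuation.ne_zero_iff _).2 hx
  have hx2 : Valued.v (phi w x) ≠ 0 := (Valuation.ne_zero_iff _).2 ((_root_.map_ne_zero _).2 hx)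
  have ho : IsOpen ({y : (w.under (𝓞 F)).adicCompletion F | Valued.v (y - x) < Valued.v x} ∩
      (phi w) ⁻¹' {y | Valued.v (y - phi w x) < Valued.v (phi w x)}) :=
    (isOpen_ball _ x hx1).inter ((isOpen_ball _ _ hx2).preimage (phi_cont w))
  obtain ⟨y, ⟨hy1, hy2⟩, a, rfl⟩ := (HeightOneSpectrum.denseRange_algebraMap F
    (w.under (𝓞 F))).inter_open_nonempty _ ho ⟨x, by
      constructor
      · change Valued.v (x - x) < Valued.v x
        rw [sub_self, map_zero]
        exact zero_lt_iff.2 hx1
      · change Valued.v (phi w x - phi w x) < Valued.v (phi w x)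
        rw [sub_self, map_zero]
        exact zero_lt_iff.2 hx2⟩
  rw [← val_near _ hy1, ← val_near _ hy2, phi_alg, val_K, val_K, he]

end Pool.Agent.U36.HV
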