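import Pool.Agent.U36.SC.Loc
import Pool.Agent.U36.CM.Approx

/-!
Finite subschemes of the multiplicative group, version for limits.
-/

set_option autoImplicit false
set_option linter.unusedSectionVars false

open NumberField IsDedekindDomain Polynomial WithZero

namespace Pool.Agent.U36.HV

open Pool.Agent.U36.BA Pool.Agent.U36.SC

variable {K : Type} [Field K] [NumberField K]

/-- A family of local points of a finite subscheme of the multiplicative group which is global modulo
all powers is a global point. -/
theorem fs_approx {b : ℕ → K} (hb : Sys b)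
    (x : ∀ v : HeightOneSpectrum (𝓞 K), v.adicCompletion K) (hx0 : ∀ v, x v ≠ 0)
    (hx : ∀ N : ℕ, 1 ≤ N → ∀ v (γ : ℤᵐ⁰), γ ≠ 0 → ∃ z : v.adicCompletion K,
      Valued.v (x v - algebraMap K (v.adicCompletion K) (b N) * z ^ N) < γ)
    (P : K[X]) (hP : P.Monic)
    (hroot : ∀ v : HeightOneSpectrum (𝓞 K),
      P.eval₂ (algebraMap K (v.adicCompletion K)) (x v) = 0) :
    ∃ a : K, a ≠ 0 ∧ (∀ v, x v = algebraMap K (v.adicCompletion K) a) ∧
      ∀ N : ℕ, 1 ≤ N → ∃ y : K, b N = a * y ^ N := by
  classical
  obtain ⟨Q, hQ, hQ0⟩ := P.exists_eq_pow_rootMultiplicity_mul_and_not_dvd hP.ne_zero 0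
  rw [map_zero, sub_zero] at hQ hQ0
  set m := rootMultiplicity 0 P with hm
  have hQm : Q.Monic := by
    have h1 : (X ^ m * Q).Monic := hQ ▸ hP
    exact Monic.of_mul_monic_left (monic_X_pow m) h1
  have hQr : ∀ v : HeightOneSpectrum (𝓞 K),
      Q.eval₂ (algebraMap K (v.adicCompletion K)) (x v) = 0 := by
    intro v
    have h1 := hroot v
    rw [hQ, eval₂_mul, eval₂_pow, eval₂_X] at h1
    exact (mul_eq_zero.1 h1).resolve_left (pow_ne_zero _ (hx0 v))
  have hc0 : Q.coeff 0 ≠ 0 := fun h0 => hQ0 (X_dvd_iff.2 h0)
  have hNF : NumberField Q.SplittingField := NumberField.of_module_finite K _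
  set L := Q.SplittingField with hL
  set R : Multiset L := (Q.map (algebraMap K L)).roots with hR
  have hprod : Q.map (algebraMap K L) = (R.map fun α => X - C α).prod :=
    Splits.eq_prod_roots_of_monic (SplittingField.splits Q) (hQm.map _)
  have hRne : ∀ α ∈ R, α ≠ 0 := by
    intro α hα h0
    rw [hR, mem_roots (hQm.map _).ne_zero, IsRoot.def, h0, ← coeff_zero_eq_eval_zero,
      coeff_map] at hα
    exact hc0 ((_root_.map_eq_zero _).1 hα)
  obtain ⟨r, hr0, hr⟩ := fs_res (K := K) (L := L)
    (fun i : {α // α ∈ R.toFinset} => (i : L)) (fun i => hRne i.1 (Multiset.mem_toFinset.1 i.2))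
    hb (by
      intro N hN
      set T : Set (HeightOneSpectrum (𝓞 L)) :=
        {w | w.valuation L (algebraMap K L (b N)) ≠ 1} ∪
          ⋃ i ∈ Finset.range (Q.natDegree + 1), {w | Q.coeff i ≠ 0 ∧
            w.valuation L (algebraMap K L (Q.coeff i)) ≠ 1} with hT
      refine ⟨T, ?_, ?_⟩
      · refine (finite_ne_one ((_root_.map_ne_zero _).2 (hb.ne N))).union ?_
        refine Set.Finite.biUnion (Finset.finite_toSet _) fun i _ => ?_
        by_cases hi : Q.coeff i = 0
        · simp [hi]
        · refine (finite_ne_one (K := L) ((_root_.map_ne_zero (algebraMap K L)).2 hi)).subset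
            fun w hw => hw.2
      · intro w hw
        simp only [hT, Set.mem_union, Set.mem_iUnion, Set.mem_ofPred_eq, not_or, not_exists,
          not_and, not_not] at hw
        obtain ⟨hw1, hw2⟩ := hw
        obtain ⟨e, he, hew⟩ := under_pow (K := K) w
        set v := w.under (𝓞 K) with hv
        have hb1 : v.valuation K (b N) = 1 := by
          rw [hew] at hw1
          exact (pow_eq_one_iff.1 hw1).resolve_right he
        have hci : ∀ i, Valued.v (algebraMap K (v.adicCompletion K) (Q.coeff i)) ≤ 1 := by
          intro i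
          rw [val_K]
          by_cases hi : Q.coeff i = 0
          · rw [hi, map_zero]
            exact zero_le
          · by_cases hi' : i ∈ Finset.range (Q.natDegree + 1)
            · have h1 := hw2 i hi' hi
              rw [hew] at h1
              exact ((pow_eq_one_iff.1 h1).resolve_right he).le
            · rw [coeff_eq_zero_of_natDegree_lt, map_zero]
              · exact zero_le
              · rw [Finset.mem_range] at hi'
                omega
        have hxv := val_root_le Valued.v (algebraMap K (v.adicCompletion K)) Q hQm hci (x v) (hQr v)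
        obtain ⟨z, hz⟩ := hx N hN v 1 one_ne_zero
        have hz1 : Valued.v z ≤ 1 := by
          have e0 : algebraMap K (v.adicCompletion K) (b N) * z ^ N =
              x v - (x v - algebraMap K (v.adicCompletion K) (b N) * z ^ N) := by ring
          have h0 : Valued.v (algebraMap K (v.adicCompletion K) (b N) * z ^ N) ≤ 1 := by
            rw [e0]
            exact (Valuation.map_sub _ _ _).trans (max_le hxv hz.le)
          rw [map_mul, val_K, hb1, one_mul, map_pow] at h0
          exact (pow_le_one_iff (by omega)).1 h0
        obtain ⟨s, hs⟩ := exists_near_int v z hz1 one_ne_zero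
        set y : K := b N * (s : K) ^ N with hy
        have hs1 : Valued.v (algebraMap K (v.adicCompletion K) (algebraMap (𝓞 K) K s)) ≤ 1 := by
          rw [val_K]
          exact v.valuation_le_one s
        have h1 : Valued.v (x v - algebraMap K (v.adicCompletion K) y) < 1 := by
          have e0 : x v - algebraMap K (v.adicCompletion K) y =
              (x v - algebraMap K (v.adicCompletion K) (b N) * z ^ N) +
              (algebraMap K (v.adicCompletion K) (b N) * z ^ N -
                algebraMap K (v.adicCompletion K) y) := by ring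
          rw [e0]
          refine Valuation.map_add_lt _ hz ?_
          rw [hy, map_mul, map_pow, ← mul_sub, map_mul, val_K, hb1, one_mul]
          exact pow_sub_lt _ hz1 hs1 hs N
        have hy1 : Valued.v (algebraMap K (v.adicCompletion K) y) ≤ 1 := by
          rw [hy, map_mul, map_pow, map_mul, map_pow, val_K, hb1, one_mul]
          exact pow_le_one₀ zero_le hs1
        have h2 : Valued.v (algebraMap K (v.adicCompletion K) (Q.eval y)) < 1 := by
          have e1 : algebraMap K (v.adicCompletion K) (Q.eval y) =
              - (Q.eval₂ (algebraMap K (v.adicCompletion K)) (x v) -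
                Q.eval₂ (algebraMap K (v.adicCompletion K)) (algebraMap K _ y)) := by
            rw [hQr v, zero_sub, neg_neg, eval₂_at_apply]
          rw [e1, Valuation.map_neg, eval₂_eq_sum_range, eval₂_eq_sum_range,
            ← Finset.sum_sub_distrib]
          refine Valuation.map_sum_lt _ one_ne_zero fun i _ => ?_
          rw [← mul_sub, map_mul]
          exact mul_lt_one_of_nonneg_of_lt_one_right (hci i) zero_le (pow_sub_lt _ hxv hy1 h1 i)
        have h3 : w.valuation L (algebraMap K L (Q.eval y)) < 1 := by
          rw [hew, ← val_K v]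
          exact pow_lt_one₀ zero_le h2 he
        have h4 : algebraMap K L (Q.eval y) = (R.map fun α => algebraMap K L y - α).prod := by
          rw [← eval_map_apply, hprod, eval_multiset_prod, Multiset.map_map]
          congr 1
          refine Multiset.map_congr rfl fun α _ => ?_
          simp
        rw [h4] at h3
        obtain ⟨α, hα, h5⟩ : ∃ α ∈ R, w.valuation L (algebraMap K L y - α) < 1 := by
          by_contra hno
          push Not at hno
          refine absurd h3 (not_lt.2 ?_)
          refine Multiset.prod_induction (fun u => 1 ≤ w.valuation L u) _ ?_ ?_ ?_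
          · intro u u' hu hu'
            change 1 ≤ w.valuation L (u * u')
            rw [map_mul]
            exact one_le_mul hu hu'
          · change 1 ≤ w.valuation L 1
            rw [map_one]
          · intro u hu
            obtain ⟨α, hα, rfl⟩ := Multiset.mem_map.1 hu
            exact hno α hα
        refine ⟨⟨α, Multiset.mem_toFinset.2 hα⟩, algebraMap (𝓞 K) (𝓞 L) s, ?_⟩
        change w.valuation L (α / algebraMap K L (b N) - (algebraMap K L (s : K)) ^ N) < 1
        have hbL : algebraMap K L (b N) ≠ 0 := (_root_.map_ne_zero _).2 (hb.ne N)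
        have e2 : α / algebraMap K L (b N) - (algebraMap K L (s : K)) ^ N =
            - ((algebraMap K L y - α) / algebraMap K L (b N)) := by
          rw [hy, map_mul, map_pow, sub_div, mul_div_cancel_left₀ _ hbL, neg_sub]
        rw [e2, Valuation.map_neg, map_div₀, hw1, div_one]
        exact h5)
  refine ⟨r, hr0, fun v => ?_, hr⟩
  have hrv : algebraMap K (v.adicCompletion K) r ≠ 0 := (_root_.map_ne_zero _).2 hr0
  set r' := algebraMap K (v.adicCompletion K) r with hr'
  have hxv0 : Valued.v (x v) ≠ 0 := (Valuation.ne_zero_iff _).2 (hx0 v)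
  have hrv0 : Valued.v r' ≠ 0 := (Valuation.ne_zero_iff _).2 hrv
  have key : ∀ N : ℕ, 1 ≤ N → ∀ γ : ℤᵐ⁰, γ ≠ 0 → ∃ z : v.adicCompletion K,
      Valued.v (x v - r' * z ^ N) < γ ∧ Valued.v (x v) = Valued.v r' * Valued.v z ^ N := by
    intro N hN γ hγ
    obtain ⟨z, hz⟩ := hx N hN v (min γ (Valued.v (x v))) (by
      rcases min_choice γ (Valued.v (x v)) with h | h <;> rw [h]
      · exact hγ
      · exact hxv0)
    obtain ⟨y, hy⟩ := hr N hN
    have e0 : algebraMap K (v.adicCompletion K) (b N) * z ^ N =
        r' * (algebraMap K (v.adicCompletion K) y * z) ^ N := by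
      rw [hy, map_mul, map_pow, mul_pow]
      ring
    rw [e0] at hz
    refine ⟨_, hz.trans_le (min_le_left _ _), ?_⟩
    have h1 : Valued.v (r' * (algebraMap K (v.adicCompletion K) y * z) ^ N) = Valued.v (x v) := by
      have e1 : r' * (algebraMap K (v.adicCompletion K) y * z) ^ N = x v +
          (r' * (algebraMap K (v.adicCompletion K) y * z) ^ N - x v) := by ring
      rw [e1]
      refine Valuation.map_add_eq_of_lt_left _ ?_
      rw [Valuation.map_sub_swap]
      exact hz.trans_le (min_le_right _ _)
    rw [← h1, map_mul, map_pow]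
  have hxr : Valued.v (x v) = Valued.v r' := by
    have h1 : WithZero.log (Valued.v (x v)) = WithZero.log (Valued.v r') := by
      obtain ⟨z, -, hz⟩ := key ((WithZero.log (Valued.v (x v)) -
        WithZero.log (Valued.v r')).natAbs + 1) (by omega) 1 one_ne_zero
      have hz0 : Valued.v z ≠ 0 := by
        intro h0
        rw [h0, zero_pow (by omega), mul_zero] at hz
        exact hxv0 hz
      have h2 := congrArg WithZero.log hz
      rw [WithZero.log_mul hrv0 (pow_ne_zero _ hz0), WithZero.log_pow] at h2
      have h3 : (((WithZero.log (Valued.v (x v)) - WithZero.log (Valued.v r')).natAbs + 1 : ℕ) : ℤ) ∣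
          WithZero.log (Valued.v (x v)) - WithZero.log (Valued.v r') := by
        refine ⟨WithZero.log (Valued.v z), ?_⟩
        rw [← nsmul_eq_mul]
        omega
      by_contra h4
      have h5 := Int.natAbs_dvd_natAbs.2 h3
      rw [Int.natAbs_natCast] at h5
      have h6 := Nat.le_of_dvd (Int.natAbs_pos.2 (sub_ne_zero.2 h4)) h5
      omega
    rw [← WithZero.exp_log hxv0, h1, WithZero.exp_log hrv0]
  have hclose : ∀ q : 𝓞 K, q ≠ 0 →
      Valued.v (x v - r') ≤ Valued.v r' * v.valuation K (algebraMap (𝓞 K) K q) := by
    intro q hq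
    obtain ⟨e, he0, he⟩ := pow_near_one q hq
    have hqv : v.valuation K (algebraMap (𝓞 K) K q) ≠ 0 := (Valuation.ne_zero_iff _).2
      (by simpa using hq)
    obtain ⟨z, hz, hz1⟩ := key e he0 _ (mul_ne_zero hrv0 hqv)
    have h2 : Valued.v z ^ e = 1 := by
      rw [hxr] at hz1
      exact (mul_eq_left₀ hrv0).1 hz1.symm
    have h3 := he v z ((pow_eq_one_iff.1 h2).resolve_right he0.ne')
    have e1 : x v - r' = (x v - r' * z ^ e) + r' * (z ^ e - 1) := by ring
    rw [e1]
    refine (Valuation.map_add _ _ _).trans (max_le hz.le ?_)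
    rw [map_mul]
    exact mul_le_mul_right h3 _
  by_contra hne
  have h0 : Valued.v (x v - r') / Valued.v r' ≠ 0 :=
    div_ne_zero ((Valuation.ne_zero_iff _).2 (sub_ne_zero.2 hne)) hrv0
  obtain ⟨q, hq0, hq⟩ := exists_small v (γ := Valued.v (x v - r') / Valued.v r') h0
  have h3 := hclose (q : 𝓞 K) (Int.cast_ne_zero.2 hq0)
  rw [map_intCast] at h3
  have h4 := mul_lt_mul_of_pos_left hq (zero_lt_iff.2 hrv0)
  rw [mul_div_cancel₀ _ hrv0] at h4
  exact absurd h3 (not_le.2 h4)

end Pool.Agent.U36.HV
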