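import Pool.Agent.U36.HV.FsA
import Pool.Agent.U36.CM.Gen

/-!
Finite subschemes of the multiplicative group, version for limits.
-/

set_option autoImplicit false
set_option linter.unusedSectionVars false

open NumberField IsDedekindDomain Polynomial WithZero Filter

namespace Pool.Agent.U36.HV

open Pool.Agent.U36.BA Pool.Agent.U36.SC Pool.Agent.U36.CM

variable {K : Type} [Field K] [NumberField K]

lemma finite_quot {G : Type} [CommGroup G] [Group.FG G] (N : ℕ) (hN : 1 ≤ N) :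
    Finite (G ⧸ (powMonoidHom N : G →* G).range) := by
  have htor : Monoid.IsTorsion (G ⧸ (powMonoidHom N : G →* G).range) := by
    intro g
    obtain ⟨x, rfl⟩ := QuotientGroup.mk_surjective g
    rw [isOfFinOrder_iff_pow_eq_one]
    refine ⟨N, hN, ?_⟩
    rw [← QuotientGroup.mk_pow, QuotientGroup.eq_one_iff]
    exact ⟨x, rfl⟩
  exact CommGroup.finite_of_fg_torsion _ htor

lemma exists_const (U : Ultrafilter ℕ) {X : Type} [Finite X] (f : ℕ → X) :
    ∃ c, ∀ᶠ j in (U : Filter ℕ), f j = c := by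
  by_contra hno
  push Not at hno
  have h1 : ∀ c, ∀ᶠ j in (U : Filter ℕ), ¬ f j = c := hno
  have h2 := Filter.eventually_all.2 h1
  obtain ⟨j, hj⟩ := h2.exists
  exact hj _ rfl

/-- A family of local points of a finite subscheme of the multiplicative group which is a limit of
global elements is a global point. -/
theorem fs_sq (x : ∀ v : HeightOneSpectrum (𝓞 K), v.adicCompletion K) (h : Sq x)
    (P : K[X]) (hP : P.Monic)
    (hroot : ∀ v : HeightOneSpectrum (𝓞 K),
      P.eval₂ (algebraMap K (v.adicCompletion K)) (x v) = 0) :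
    ∃ a : K, a ≠ 0 ∧ ∀ v, x v = algebraMap K (v.adicCompletion K) a := by
  obtain ⟨b, hb0, hbv, hbq⟩ := h
  choose u hu using fun j => unit_of_val (hb0 j) (hb0 0) (fun v => by rw [hbv, hbv])
  let U : Ultrafilter ℕ := Filter.hyperfilter ℕ
  have hUtop : (U : Filter ℕ) ≤ atTop := by
    rw [← Nat.cofinite_eq_atTop]
    exact Filter.hyperfilter_le_cofinite
  have hcl : ∀ N : ℕ, ∃ c : (𝓞 K)ˣ, 1 ≤ N → ∀ᶠ j in (U : Filter ℕ), ∃ e : (𝓞 K)ˣ,
      u j = c * e ^ N := by
    intro N
    by_cases hN : 1 ≤ N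
    · have hfg : Group.FG (𝓞 K)ˣ := Group.fg_iff_monoid_fg.2 inferInstance
      have hfin := finite_quot (G := (𝓞 K)ˣ) N hN
      obtain ⟨c, hc⟩ := exists_const U
        (fun j => (QuotientGroup.mk (u j) : (𝓞 K)ˣ ⧸ (powMonoidHom N : (𝓞 K)ˣ →* (𝓞 K)ˣ).range))
      obtain ⟨c, rfl⟩ := QuotientGroup.mk_surjective c
      refine ⟨c, fun _ => ?_⟩
      filter_upwards [hc] with j hj
      rw [eq_comm, QuotientGroup.eq] at hj
      obtain ⟨e, he⟩ := hj
      refine ⟨e, ?_⟩
      change e ^ N = c⁻¹ * u j at he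
      rw [he, mul_inv_cancel_left]
    · exact ⟨1, fun h => absurd h hN⟩
  choose c hc using hcl
  have hunit0 : ∀ e : (𝓞 K)ˣ, ((e : 𝓞 K) : K) ≠ 0 := fun e => by
    simp
  set B : ℕ → K := fun N => ((c N : 𝓞 K) : K) * b 0 with hB
  have hsys : Sys B := by
    refine ⟨fun n => mul_ne_zero (hunit0 _) (hb0 0), fun n m hn hm => ?_⟩
    obtain ⟨j, ⟨e, he⟩, ⟨e', he'⟩⟩ := ((hc n hn).and (hc (n * m) (Nat.mul_pos hn hm))).exists
    refine ⟨((e / e' ^ m : (𝓞 K)ˣ) : 𝓞 K), ?_⟩
    have h1 : c (n * m) = c n * (e / e' ^ m) ^ n := by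
      rw [he] at he'
      rw [div_pow, ← pow_mul, mul_comm m n, ← mul_div_assoc, he', mul_div_cancel_right]
    rw [hB]
    simp only
    rw [h1]
    push_cast
    ring
  obtain ⟨a, ha0, ha, -⟩ := fs_approx hsys x (fun v h0 => by
      have h1 := hbv 0 v
      rw [h0, map_zero] at h1
      exact (Valuation.ne_zero_iff _).2 (hb0 0) h1) (by
    intro N hN v γ hγ
    have hxv : Valued.v (x v) ≠ 0 := by
      rw [← hbv 0 v]
      exact (Valuation.ne_zero_iff _).2 (hb0 0)
    obtain ⟨q, hq0, hq⟩ := exists_small v (γ := γ / Valued.v (x v)) (div_ne_zero hγ hxv)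
    obtain ⟨j0, hj0⟩ := hbq (q : 𝓞 K) (Int.cast_ne_zero.2 hq0)
    obtain ⟨j, ⟨e, he⟩, hj⟩ := ((hc N hN).and (hUtop (eventually_ge_atTop j0))).exists
    refine ⟨algebraMap K (v.adicCompletion K) ((e : 𝓞 K) : K), ?_⟩
    have h1 : algebraMap K (v.adicCompletion K) (B N) *
        algebraMap K (v.adicCompletion K) ((e : 𝓞 K) : K) ^ N =
        algebraMap K (v.adicCompletion K) (b j) := by
      rw [← map_pow, ← map_mul, hu j, he, hB]
      congr 1
      push_cast
      ring
    rw [h1]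
    refine (hj0 j hj v).trans_lt ?_
    rw [map_intCast]
    have h4 := mul_lt_mul_of_pos_left hq (zero_lt_iff.2 hxv)
    rwa [mul_div_cancel₀ _ hxv] at h4) P hP hroot
  exact ⟨a, ha0, ha⟩

end Pool.Agent.U36.HV
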