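import Pool.Agent.U36.HV.Near

/-!
The closure of the rational points of the torus.
-/

set_option autoImplicit false
set_option linter.unusedSectionVars false

open IsDedekindDomain NumberField WithZero Polynomial Filter Topology

namespace Pool.Agent.U36.HV

open Pool.Agent.U36.BA Pool.Agent.U36.SC Pool.Agent.U36.CM

variable {F N : Type} [Field F] [NumberField F] [Field N] [NumberField N] [Algebra F N]

lemma prod_alg {P : F[X]} [Fintype (AdjoinRoot P →ₐ[F] N)] (hP : P.Monic) (hirr : Irreducible P)
    (hs : (P.map (algebraMap F N)).Splits) :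
    P.map (algebraMap F N) = ∏ e : AdjoinRoot P →ₐ[F] N, (X - C (e (AdjoinRoot.root P))) := by
  classical
  have hnd : (P.aroots N).Nodup := nodup_roots (Separable.map hirr.separable)
  set eqv := AdjoinRoot.equiv N F P hP.ne_zero with heqv
  have heq : ∀ e : AdjoinRoot P →ₐ[F] N, ((eqv e : {x // x ∈ P.aroots N}) : N) =
      e (AdjoinRoot.root P) := fun e => rfl
  have : Fintype {x // x ∈ P.aroots N} := Fintype.ofEquiv _ eqv
  calc P.map (algebraMap F N) = ((P.aroots N).map fun α => X - C α).prod :=
        Splits.eq_prod_roots_of_monic hs (hP.map _)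
    _ = ∏ α ∈ (P.aroots N).toFinset, (X - C α) := by
        rw [Finset.prod_eq_multiset_prod, Multiset.toFinset_val, Multiset.dedup_eq_self.2 hnd]
    _ = ∏ α : {x // x ∈ P.aroots N}, (X - C (α : N)) := by
        refine Finset.prod_subtype _ (fun α => ?_) _
        rw [Multiset.mem_toFinset]
    _ = ∏ e : AdjoinRoot P →ₐ[F] N, (X - C (e (AdjoinRoot.root P))) :=
        (Equiv.prod_comp eqv (fun α : {x // x ∈ P.aroots N} => (X - C (α : N)))).symm

lemma exists_alg {P : F[X]} (hP : P.Monic) (hirr : Irreducible P)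
    (hs : (P.map (algebraMap F N)).Splits) : Nonempty (AdjoinRoot P →ₐ[F] N) := by
  classical
  have hfin : Finite (AdjoinRoot P →ₐ[F] N) := by
    have h1 : Finite { x // x ∈ P.aroots N } := (Multiset.finite_toSet _).to_subtype
    exact Finite.of_equiv _ (AdjoinRoot.equiv N F P hP.ne_zero).symm
  have hft : Fintype (AdjoinRoot P →ₐ[F] N) := Fintype.ofFinite _
  by_contra hno
  rw [not_nonempty_iff] at hno
  have h1 := prod_alg hP hirr hs
  rw [Finset.univ_eq_empty, Finset.prod_empty] at h1
  have h2 := congrArg natDegree h1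
  rw [natDegree_map, natDegree_one] at h2
  exact hirr.natDegree_pos.ne' h2

lemma norm_mem [IsGalois F N] {P : F[X]} [Fintype (AdjoinRoot P →ₐ[F] N)] (l : AdjoinRoot P) :
    ∃ c : F, algebraMap F N c = ∏ e : AdjoinRoot P →ₐ[F] N, e l := by
  have hfd : FiniteDimensional F N := Module.Finite.of_restrictScalars_finite ℚ F N
  change _ ∈ Set.range (algebraMap F N)
  rw [IsGalois.mem_range_algebraMap_iff_fixed]
  intro τ
  rw [map_prod]
  let eqv : (AdjoinRoot P →ₐ[F] N) ≃ (AdjoinRoot P →ₐ[F] N) :=
    { toFun := fun e => (τ : N →ₐ[F] N).comp e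
      invFun := fun e => (τ.symm : N →ₐ[F] N).comp e
      left_inv := fun e => by ext; simp
      right_inv := fun e => by ext; simp }
  exact Equiv.prod_comp eqv fun e : AdjoinRoot P →ₐ[F] N => e l

lemma near_descend (w : HeightOneSpectrum (𝓞 N)) (a : (w.under (𝓞 F)).adicCompletion F) (b : F)
    (m : ℕ) (h : Near Valued.v (w.valuation N (algebraMap (𝓞 N) N (m : 𝓞 N))) (phi w a)
      (algebraMap N (w.adicCompletion N) (algebraMap F N b))) :
    Near Valued.v ((w.under (𝓞 F)).valuation F (algebraMap (𝓞 F) F (m : 𝓞 F))) a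
      (algebraMap F ((w.under (𝓞 F)).adicCompletion F) b) := by
  obtain ⟨e, he0, he⟩ := phi_val (F := F) w
  obtain ⟨h1, h2, h3⟩ := h
  rw [← phi_alg, ← map_div₀] at h2 h3
  refine ⟨fun h0 => h1 (by rw [h0, map_zero]), ?_, ?_⟩
  · rw [he] at h2
    exact (pow_eq_one_iff.1 h2).resolve_right he0
  · have e1 : w.valuation N (algebraMap (𝓞 N) N (m : 𝓞 N)) =
        (w.under (𝓞 F)).valuation F (algebraMap (𝓞 F) F (m : 𝓞 F)) ^ e := by
      rw [← val_K (w.under (𝓞 F)), ← he, phi_alg, val_K, map_natCast (algebraMap (𝓞 N) N),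
        map_natCast (algebraMap (𝓞 F) F), map_natCast (algebraMap F N)]
    rw [e1, ← map_one (phi (F := F) w), ← map_sub, he] at h3
    exact (pow_le_pow_iff_left₀ zero_le zero_le he0).1 h3

theorem main {I : Type} [Fintype I] (P : I → F[X]) (hP : ∀ i, (P i).Monic)
    (hirr : ∀ i, Irreducible (P i)) (hinj : Function.Injective P)
    (hI : Enough F (Fintype.card I)) (u : ∀ i, (AdelicAlgebra F (P i))ˣ)
    (hu : u ∈ closure (torusF P)) (x : FiniteAdeleRing (𝓞 F) F)
    (hx : ∀ i, (u i : AdelicAlgebra F (P i)) =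
      algebraMap _ _ x - incl (P i) (AdjoinRoot.root (P i))) :
    ∃ a : F, x = algebraMap F _ a := by
  classical
  set N := (∏ i, P i).SplittingField with hN
  have hNF : NumberField N := NumberField.of_module_finite F _
  have hnorm : Normal F N := Normal.of_isSplittingField (∏ i, P i)
  have hgal : IsGalois F N := { }
  have hprod0 : (∏ i, P i) ≠ 0 := Finset.prod_ne_zero_iff.2 fun i _ => (hP i).ne_zero
  have hs : ∀ i, ((P i).map (algebraMap F N)).Splits := by
    intro i
    refine Splits.of_dvd (SplittingField.splits (∏ i, P i)) ?_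
      (Polynomial.map_dvd _ (Finset.dvd_prod_of_mem _ (Finset.mem_univ i)))
    exact (Polynomial.map_ne_zero_iff (algebraMap F N).injective).2 hprod0
  have hfin : ∀ i, Finite (AdjoinRoot (P i) →ₐ[F] N) := fun i => by
    have h1 : Finite { x // x ∈ (P i).aroots N } := (Multiset.finite_toSet _).to_subtype
    exact Finite.of_equiv _ (AdjoinRoot.equiv N F (P i) (hP i).ne_zero).symm
  have hft : ∀ i, Fintype (AdjoinRoot (P i) →ₐ[F] N) := fun i => Fintype.ofFinite _
  choose l hl using fun j : ℕ => approx (N := N) P (fun i => (hP i).ne_zero) u hu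
    (j.factorial : 𝓞 N) (Nat.cast_ne_zero.2 (Nat.factorial_ne_zero j))
  have hpsi : ∀ i (e : AdjoinRoot (P i) →ₐ[F] N) (w : HeightOneSpectrum (𝓞 N)),
      psi e (u i).1 w = phi w (x (w.under (𝓞 F))) -
        algebraMap N (w.adicCompletion N) (e (AdjoinRoot.root (P i))) := by
    intro i e w
    rw [hx i, map_sub, psi_alg, psi_incl]
    rfl
  have hel : ∀ j i (e : AdjoinRoot (P i) →ₐ[F] N), e (l j i) ≠ 0 := by
    intro j i e
    exact ((l j i).isUnit.map e).ne_zero
  -- the values of the polynomials
  have hSq : ∀ i, Sq (fun v => (P i).eval₂ (algebraMap F (v.adicCompletion F)) (x v)) := by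
    intro i
    choose c hc using fun j => norm_mem (F := F) (N := N) (P := P i) (l j i : AdjoinRoot (P i))
    refine sq_of_near _ c (fun j h0 => ?_) (fun j v => ?_)
    · have h1 := hc j
      rw [h0, map_zero] at h1
      exact Finset.prod_ne_zero_iff.2 (fun e _ => hel j i e) h1.symm
    · obtain ⟨w, rfl⟩ := exists_over (N := N) v
      refine near_descend w _ _ _ ?_
      have h1 := Near.prod Finset.univ (fun e (_ : e ∈ Finset.univ) => hl j i e w)
      rw [hc j, map_prod]
      convert h1 using 1
      have h2 : phi w ((P i).eval₂ (algebraMap F ((w.under (𝓞 F)).adicCompletion F))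
          (x (w.under (𝓞 F)))) = ((P i).map (algebraMap F N)).eval₂
            (algebraMap N (w.adicCompletion N)) (phi w (x (w.under (𝓞 F)))) := by
        rw [hom_eval₂, eval₂_map]
        congr 1
        exact RingHom.ext fun a => phi_alg w a
      rw [h2, prod_alg (hP i) (hirr i) (hs i), eval₂_finsetProd]
      refine Finset.prod_congr rfl fun e _ => ?_
      rw [hpsi, eval₂_sub, eval₂_X, eval₂_C]
  obtain ⟨Q, hQ, hQ0⟩ := core_sq hI P hP (fun i => (hirr i).natDegree_pos)
    (fun i j hij => by
      rw [Irreducible.coprime_iff_not_dvd (hirr i)]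
      intro hdvd
      apply hij
      apply hinj
      exact eq_of_monic_of_associated (hP i) (hP j) ((hirr i).associated_of_dvd (hirr j) hdvd))
    (fun v => x v) hSq
  -- one point
  have hne : Nonempty I := by
    rw [← Fintype.card_pos_iff]
    have hd : 0 < Module.finrank ℚ F := Module.finrank_pos
    rcases hI with h1 | ⟨h1, -⟩ <;> omega
  obtain ⟨i⟩ := hne
  obtain ⟨e⟩ := exists_alg (hP i) (hirr i) (hs i)
  set θ := e (AdjoinRoot.root (P i)) with hθ
  have hz : Sq (fun w : HeightOneSpectrum (𝓞 N) => phi w (x (w.under (𝓞 F))) -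
      algebraMap N (w.adicCompletion N) θ) := by
    refine sq_of_near _ (fun j => e (l j i)) (fun j => hel j i e) fun j w => ?_
    have h1 := hl j i e w
    rw [hpsi] at h1
    exact h1
  obtain ⟨a, -, ha⟩ := fs_sq _ hz ((Q.map (algebraMap F N)).comp (X + C θ))
    ((hQ.map _).comp_X_add_C θ) (fun w => by
      rw [eval₂_comp, eval₂_add, eval₂_X, eval₂_C, sub_add_cancel, eval₂_map]
      have h1 := congrArg (phi w) (hQ0 (w.under (𝓞 F)))
      rw [hom_eval₂, map_zero] at h1
      rw [← h1]
      congr 1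
      exact RingHom.ext fun c => (phi_alg w c).symm)
  obtain ⟨a', -, ha'⟩ := descent (N := N) (fun v => x v) (a + θ) (fun w => by
    rw [map_add, ← ha w, sub_add_cancel])
  exact ⟨a', FiniteAdeleRing.ext F fun v => ha' v⟩

end Pool.Agent.U36.HV
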