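import Pool.Agent.U36.HV.Psi
import Pool.Agent.U36.HV.FsB

/-!
Closeness of elements of completions; descent to the ground field.
-/

set_option autoImplicit false
set_option linter.unusedSectionVars false

open IsDedekindDomain NumberField WithZero Polynomial Filter Topology

namespace Pool.Agent.U36.HV

open Pool.Agent.U36.BA Pool.Agent.U36.SC Pool.Agent.U36.CM

section near

variable {Γ R : Type*} [Field R] [LinearOrderedCommGroupWithZero Γ] {V : Valuation R Γ} {γ : Γ}

lemma Near.one : Near V γ (1 : R) 1 := by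
  refine ⟨one_ne_zero, by simp, ?_⟩
  rw [div_one, sub_self, map_zero]
  exact zero_le

lemma Near.mul {a b a' b' : R} (h : Near V γ a b) (h' : Near V γ a' b') :
    Near V γ (a * a') (b * b') := by
  obtain ⟨h1, h2, h3⟩ := h
  obtain ⟨h1', h2', h3'⟩ := h'
  refine ⟨mul_ne_zero h1 h1', ?_, ?_⟩
  · rw [← div_mul_div_comm, map_mul, h2, h2', one_mul]
  · have e : b * b' / (a * a') - 1 = (b / a - 1) * (b' / a') + (b' / a' - 1) := by
      rw [← div_mul_div_comm]
      ring
    rw [e]
    refine (Valuation.map_add _ _ _).trans (max_le ?_ h3')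
    rw [map_mul, h2', mul_one]
    exact h3

lemma Near.prod {ι : Type*} (s : Finset ι) {a b : ι → R} (h : ∀ i ∈ s, Near V γ (a i) (b i)) :
    Near V γ (∏ i ∈ s, a i) (∏ i ∈ s, b i) := by
  classical
  induction s using Finset.induction_on with
  | empty => exact Near.one
  | insert i s hi ih =>
    rw [Finset.prod_insert hi, Finset.prod_insert hi]
    exact (h i (Finset.mem_insert_self i s)).mul
      (ih fun j hj => h j (Finset.mem_insert_of_mem hj))

lemma Near.val {a b : R} (h : Near V γ a b) : V b = V a := by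
  have h1 := h.2.1
  rw [map_div₀, div_eq_one_iff_eq ((Valuation.ne_zero_iff _).2 h.1)] at h1
  exact h1

lemma Near.sub_le {a b : R} (h : Near V γ a b) : V (a - b) ≤ V a * γ := by
  have e : a - b = -(a * (b / a - 1)) := by
    rw [mul_sub, mul_div_cancel₀ _ h.1]
    ring
  rw [e, Valuation.map_neg, map_mul]
  exact mul_le_mul_right h.2.2 _

end near

variable {K : Type} [Field K] [NumberField K]

lemma fact_le (q : 𝓞 K) (hq : q ≠ 0) : ∃ j0 : ℕ, ∀ j, j0 ≤ j → ∀ v : HeightOneSpectrum (𝓞 K),
    v.valuation K (algebraMap (𝓞 K) K (j.factorial : 𝓞 K)) ≤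
      v.valuation K (algebraMap (𝓞 K) K q) := by
  have hm0 : Ideal.absNorm (Ideal.span {q}) ≠ 0 := by
    rw [Ne, Ideal.absNorm_eq_zero_iff, Ideal.span_singleton_eq_bot]
    exact hq
  obtain ⟨c, hc⟩ := Ideal.mem_span_singleton.1 (Ideal.absNorm_mem (Ideal.span {q}))
  refine ⟨Ideal.absNorm (Ideal.span {q}), fun j hj v => ?_⟩
  obtain ⟨d, hd⟩ := Nat.dvd_factorial (Nat.pos_of_ne_zero hm0) hj
  rw [hd, Nat.cast_mul, hc, mul_assoc, map_mul, map_mul]
  exact mul_le_of_le_one_right' (v.valuation_le_one _)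

lemma sq_of_near (x : ∀ v : HeightOneSpectrum (𝓞 K), v.adicCompletion K) (b : ℕ → K)
    (hb : ∀ j, b j ≠ 0) (h : ∀ j (v : HeightOneSpectrum (𝓞 K)), Near Valued.v
      (v.valuation K (algebraMap (𝓞 K) K (j.factorial : 𝓞 K))) (x v)
        (algebraMap K (v.adicCompletion K) (b j))) : Sq x := by
  refine ⟨b, hb, fun j v => ?_, fun q hq => ?_⟩
  · rw [← val_K v]
    exact (h j v).val
  · obtain ⟨j0, hj0⟩ := fact_le q hq
    exact ⟨j0, fun j hj v => (h j v).sub_le.trans (mul_le_mul_right (hj0 j hj v) _)⟩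

section descent

variable {F N : Type} [Field F] [NumberField F] [Field N] [NumberField N] [Algebra F N]

lemma exists_place (K : Type) [Field K] [NumberField K] : Nonempty (HeightOneSpectrum (𝓞 K)) := by
  obtain ⟨m, hm⟩ := Ideal.exists_maximal (𝓞 K)
  refine ⟨⟨m, hm.isPrime, ?_⟩⟩
  rintro rfl
  exact RingOfIntegers.not_isField K (Ring.isField_iff_isSimpleOrder_ideal.2
    (isSimpleOrder_iff_isCoatom_bot.2 (Ideal.isMaximal_def.1 hm)))

lemma exists_over (v : HeightOneSpectrum (𝓞 F)) : ∃ w : HeightOneSpectrum (𝓞 N),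
    w.under (𝓞 F) = v := by
  have hm : v.asIdeal.IsMaximal := v.isMaximal
  obtain ⟨P, hP, hPv⟩ := Ideal.exists_maximal_ideal_liesOver_of_isIntegral (S := 𝓞 N) v.asIdeal
  refine ⟨⟨P, hP.isPrime, ?_⟩, ?_⟩
  · rintro rfl
    apply v.ne_bot
    rw [hPv.over]
    exact Ideal.under_bot _ _
  · apply HeightOneSpectrum.ext
    exact hPv.over.symm

/-- the ground place of a conjugate place -/
lemma exists_conj (w : HeightOneSpectrum (𝓞 N)) (τ : N ≃ₐ[F] N) :
    ∃ w' : HeightOneSpectrum (𝓞 N), w'.under (𝓞 F) = w.under (𝓞 F) ∧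
      ∃ e : ℕ, e ≠ 0 ∧ ∀ c : N, w.valuation N (τ c) = w'.valuation N c ^ e := by
  obtain ⟨e, he0, he⟩ := @under_pow N _ _ N _ _ (τ : N →+* N).toAlgebra w
  refine ⟨_, ?_, e, he0, he⟩
  set w' : HeightOneSpectrum (𝓞 N) := _ with hw'
  have he' : ∀ c : N, w.valuation N (τ c) = w'.valuation N c ^ e := he
  obtain ⟨e1, he10, he1⟩ := under_pow (K := F) w
  obtain ⟨e2, he20, he2⟩ := under_pow (K := F) w'
  have key : ∀ c : F, (w'.under (𝓞 F)).valuation F c < 1 ↔ (w.under (𝓞 F)).valuation F c < 1 := by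
    intro c
    have h1 := he' (algebraMap F N c)
    rw [AlgEquiv.commutes, he1, he2, ← pow_mul] at h1
    constructor
    · intro h2
      have h3 : (w.under (𝓞 F)).valuation F c ^ e1 < 1 := by
        rw [h1]
        exact pow_lt_one₀ zero_le h2 (mul_ne_zero he20 he0)
      exact (pow_lt_one_iff he10).1 h3
    · intro h2
      have h3 : (w'.under (𝓞 F)).valuation F c ^ (e2 * e) < 1 := by
        rw [← h1]
        exact pow_lt_one₀ zero_le h2 he10
      exact (pow_lt_one_iff (mul_ne_zero he20 he0)).1 h3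
  apply HeightOneSpectrum.ext
  ext c
  rw [← HeightOneSpectrum.valuation_lt_one_iff_mem (K := F),
    ← HeightOneSpectrum.valuation_lt_one_iff_mem (K := F)]
  exact key _

theorem descent [IsGalois F N] (x : ∀ v : HeightOneSpectrum (𝓞 F), v.adicCompletion F) (a' : N)
    (h : ∀ w : HeightOneSpectrum (𝓞 N), phi w (x (w.under (𝓞 F))) =
      algebraMap N (w.adicCompletion N) a') :
    ∃ a : F, algebraMap F N a = a' ∧ ∀ v, x v = algebraMap F (v.adicCompletion F) a := by
  have hfd : FiniteDimensional F N := Module.Finite.of_restrictScalars_finite ℚ F N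
  obtain ⟨w⟩ := exists_place N
  obtain ⟨a, ha⟩ : a' ∈ Set.range (algebraMap F N) := by
    rw [IsGalois.mem_range_algebraMap_iff_fixed]
    intro τ
    by_contra hne
    have h0 : w.valuation N (τ a' - a') ≠ 0 := (Valuation.ne_zero_iff _).2 (sub_ne_zero.2 hne)
    obtain ⟨w', hw', e, he0, he⟩ := exists_conj (F := F) w τ
    set γ : ℤᵐ⁰ := min 1 (w.valuation N (τ a' - a')) with hγ
    have hγ0 : γ ≠ 0 := by
      rcases min_choice 1 (w.valuation N (τ a' - a')) with h1 | h1 <;> rw [hγ, h1]
      · exact one_ne_zero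
      · exact h0
    obtain ⟨c, hc⟩ := exists_near (w.under (𝓞 F)) (x (w.under (𝓞 F))) hγ0
    have hc' : ∀ v'' : HeightOneSpectrum (𝓞 F), v'' = w.under (𝓞 F) →
        Valued.v (x v'' - algebraMap F (v''.adicCompletion F) c) < γ := by
      rintro _ rfl
      exact hc
    have key : ∀ w'' : HeightOneSpectrum (𝓞 N), w''.under (𝓞 F) = w.under (𝓞 F) →
        w''.valuation N (a' - algebraMap F N c) < γ := by
      intro w'' hw''
      obtain ⟨e', he0', he'⟩ := phi_val (F := F) w''
      rw [← val_K w'', map_sub, ← h w'', ← phi_alg, ← map_sub, he']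
      have h1 := hc' _ hw''
      have h2 : Valued.v (x (w''.under (𝓞 F)) - algebraMap F _ c) ≤ 1 :=
        h1.le.trans (min_le_left _ _)
      exact (pow_le_of_le_one zero_le h2 he0').trans_lt h1
    have h1 := key w rfl
    have h2 : w.valuation N (τ (a' - algebraMap F N c)) < γ := by
      rw [he]
      have h3 := key w' hw'
      exact (pow_le_of_le_one zero_le (h3.le.trans (min_le_left _ _)) he0).trans_lt h3
    rw [map_sub, AlgEquiv.commutes] at h2
    have e3 : τ a' - a' = (τ a' - algebraMap F N c) - (a' - algebraMap F N c) := by ring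
    have h3 : w.valuation N (τ a' - a') < γ := by
      conv_lhs => rw [e3]
      exact Valuation.map_sub_lt _ h2 h1
    exact absurd (min_le_right _ _) (not_le.2 h3)
  refine ⟨a, ha, fun v => ?_⟩
  obtain ⟨w, rfl⟩ := exists_over (N := N) v
  apply (phi w).injective
  rw [h w, phi_alg, ha]

end descent

end Pool.Agent.U36.HV
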