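import Pool.Agent.U36.HV.Torus

/-!
Approximation of elements of the closure of the rational points of the torus.
-/

set_option autoImplicit false
set_option linter.unusedSectionVars false

open IsDedekindDomain NumberField WithZero Polynomial Filter Topology TensorProduct

namespace Pool.Agent.U36.HV

open Pool.Agent.U36.BA

variable {F : Type} [Field F] [NumberField F] {N : Type} [Field N] [NumberField N] [Algebra F N]

/-- the map of `L = F[X]/(P)` -/
noncomputable def incl (P : F[X]) : AdjoinRoot P →+* AdelicAlgebra F P :=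
  (Algebra.TensorProduct.includeRight :
    AdjoinRoot P →ₐ[F] FiniteAdeleRing (𝓞 F) F ⊗[F] AdjoinRoot P).toRingHom

/-- the map to the finite adeles of a field which contains a root of `P` -/
noncomputable def psi {P : F[X]} (e : AdjoinRoot P →ₐ[F] N) :
    AdelicAlgebra F P →+* FiniteAdeleRing (𝓞 N) N :=
  letI : Algebra F (FiniteAdeleRing (𝓞 N) N) :=
    ((algebraMap N (FiniteAdeleRing (𝓞 N) N)).comp (algebraMap F N)).toAlgebra
  (Algebra.TensorProduct.lift
    ({ beta F N with commutes' := beta_alg F N } :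
      FiniteAdeleRing (𝓞 F) F →ₐ[F] FiniteAdeleRing (𝓞 N) N)
    ({ (algebraMap N (FiniteAdeleRing (𝓞 N) N)).comp (e : AdjoinRoot P →+* N) with
        commutes' := fun a => congrArg (algebraMap N (FiniteAdeleRing (𝓞 N) N)) (e.commutes a) } :
      AdjoinRoot P →ₐ[F] FiniteAdeleRing (𝓞 N) N)
    (fun _ _ => Commute.all _ _)).toRingHom

lemma psi_tmul {P : F[X]} (e : AdjoinRoot P →ₐ[F] N) (x : FiniteAdeleRing (𝓞 F) F)
    (y : AdjoinRoot P) : psi e (show AdelicAlgebra F P from x ⊗ₜ[F] y) =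
      beta F N x * algebraMap N _ (e y) := by
  let _ : Algebra F (FiniteAdeleRing (𝓞 N) N) :=
    ((algebraMap N (FiniteAdeleRing (𝓞 N) N)).comp (algebraMap F N)).toAlgebra
  exact Algebra.TensorProduct.lift_tmul _ _ _ x y

lemma psi_incl {P : F[X]} (e : AdjoinRoot P →ₐ[F] N) (y : AdjoinRoot P) :
    psi e (incl P y) = algebraMap N _ (e y) := by
  have h := psi_tmul e 1 y
  rw [map_one, one_mul] at h
  exact h

lemma psi_alg {P : F[X]} (e : AdjoinRoot P →ₐ[F] N) (x : FiniteAdeleRing (𝓞 F) F) :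
    psi e (algebraMap _ _ x) = beta F N x := by
  have h := psi_tmul e x 1
  rw [map_one, map_one, mul_one] at h
  exact h

lemma psi_cont {P : F[X]} (e : AdjoinRoot P →ₐ[F] N) : Continuous (psi e) := by
  refine IsModuleTopology.continuous_of_ringHom (R := FiniteAdeleRing (𝓞 F) F) (psi e) ?_
  have h : (psi e).comp (algebraMap (FiniteAdeleRing (𝓞 F) F) (AdelicAlgebra F P)) = beta F N :=
    RingHom.ext fun x => psi_alg e x
  rw [h]
  exact beta_cont F N

/-- the rational points of the torus, as a subset of the adelic points -/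
def torusF {I : Type} (P : I → F[X]) : Set (∀ i, (AdelicAlgebra F (P i))ˣ) :=
  Set.range fun (l : ∀ i, (AdjoinRoot (P i))ˣ) i =>
    Units.map (incl (P i) : AdjoinRoot (P i) →* AdelicAlgebra F (P i)) (l i)

lemma approx {I : Type} [Finite I] (P : I → F[X]) (hP : ∀ i, P i ≠ 0)
    (u : ∀ i, (AdelicAlgebra F (P i))ˣ) (hu : u ∈ closure (torusF P)) (q : 𝓞 N) (hq : q ≠ 0) :
    ∃ l : ∀ i, (AdjoinRoot (P i))ˣ, ∀ i (e : AdjoinRoot (P i) →ₐ[F] N)
      (w : HeightOneSpectrum (𝓞 N)),
      Near Valued.v (w.valuation N (algebraMap (𝓞 N) N q)) ((psi e (u i).1) w)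
        (algebraMap N (w.adicCompletion N) (e (l i))) := by
  have hfin : ∀ i, Finite (AdjoinRoot (P i) →ₐ[F] N) := fun i => by
    have h1 : Finite { x // x ∈ (P i).aroots N } := (Multiset.finite_toSet _).to_subtype
    exact Finite.of_equiv _ (AdjoinRoot.equiv N F (P i) (hP i)).symm
  have hV : ∀ᶠ u' : ∀ i, (AdelicAlgebra F (P i))ˣ in 𝓝 u, ∀ i (e : AdjoinRoot (P i) →ₐ[F] N),
      Units.map (psi e : AdelicAlgebra F (P i) →* FiniteAdeleRing (𝓞 N) N) (u' i) ∈
        {z' : (FiniteAdeleRing (𝓞 N) N)ˣ | ∀ v : HeightOneSpectrum (𝓞 N),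
      Near Valued.v (v.valuation N (algebraMap (𝓞 N) N q))
        ((Units.map (psi e : AdelicAlgebra F (P i) →* FiniteAdeleRing (𝓞 N) N) (u i)).1 v)
        (z'.1 v)} := by
    refine Filter.eventually_all.2 fun i => Filter.eventually_all.2 fun e => ?_
    have hc : Continuous fun u' : ∀ i, (AdelicAlgebra F (P i))ˣ =>
        Units.map (psi e : AdelicAlgebra F (P i) →* FiniteAdeleRing (𝓞 N) N) (u' i) :=
      (Continuous.units_map _ (psi_cont e)).comp (continuous_apply i)
    exact hc.continuousAt.eventually (near_nhds q hq _)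
  obtain ⟨_, hl, l, rfl⟩ := mem_closure_iff_nhds.1 hu _ hV
  refine ⟨l, fun i e w => ?_⟩
  have h1 := hl i e w
  have h2 : (Units.map (psi e : AdelicAlgebra F (P i) →* FiniteAdeleRing (𝓞 N) N)
      (Units.map (incl (P i) : AdjoinRoot (P i) →* AdelicAlgebra F (P i)) (l i))).1 w =
      algebraMap N (w.adicCompletion N) (e (l i)) :=
    congrArg (fun z : FiniteAdeleRing (𝓞 N) N => z w) (psi_incl e (l i : AdjoinRoot (P i)))
  rw [← h2]
  exact h1

end Pool.Agent.U36.HV
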