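import Pool.Agent.U36.HV.Adele

/-!
The torus, and neighbourhoods of ideles.
-/

set_option autoImplicit false
set_option linter.unusedSectionVars false

open IsDedekindDomain NumberField WithZero Polynomial Filter Topology TensorProduct

namespace Pool.Agent.U36.HV

open Pool.Agent.U36.BA

section nhds

variable {K : Type} [Field K] [NumberField K]

lemma isOpen_int : IsOpen {y : FiniteAdeleRing (𝓞 K) K | ∀ v, Valued.v (y v) ≤ 1} :=
  RestrictedProduct.isOpen_forall_mem (R := fun v : HeightOneSpectrum (𝓞 K) => v.adicCompletion K)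
    (A := fun v => (v.adicCompletionIntegers K : Set (v.adicCompletion K)))
    (fun v => Valued.isOpen_valuationSubring _)

lemma isOpen_near (q : 𝓞 K) (hq : q ≠ 0) : IsOpen {y : FiniteAdeleRing (𝓞 K) K |
    ∀ v, Valued.v (y v - 1) ≤ v.valuation K (algebraMap (𝓞 K) K q)} := by
  have hqK : algebraMap (𝓞 K) K q ≠ 0 := by simpa using hq
  have h1 : Continuous fun y : FiniteAdeleRing (𝓞 K) K =>
      algebraMap K _ (algebraMap (𝓞 K) K q)⁻¹ * (y - 1) :=
    continuous_const.mul (continuous_id.sub continuous_const)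
  convert isOpen_int.preimage h1 using 1
  ext y
  simp only [Set.mem_ofPred_eq, Set.mem_preimage]
  refine forall_congr' fun v => ?_
  have e1 : (algebraMap K (FiniteAdeleRing (𝓞 K) K) (algebraMap (𝓞 K) K q)⁻¹ * (y - 1)) v =
      algebraMap K (v.adicCompletion K) (algebraMap (𝓞 K) K q)⁻¹ * (y v - 1) := rfl
  rw [e1, map_mul, val_K, map_inv₀, ← div_eq_inv_mul,
    div_le_one₀ (zero_lt_iff.2 ((Valuation.ne_zero_iff _).2 hqK))]

/-- closeness of elements of a completion -/
def Near {Γ R : Type*} [Field R] [LinearOrderedCommGroupWithZero Γ] (V : Valuation R Γ) (γ : Γ)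
    (a b : R) : Prop :=
  a ≠ 0 ∧ V (b / a) = 1 ∧ V (b / a - 1) ≤ γ

lemma near_nhds (q : 𝓞 K) (hq : q ≠ 0) (z : (FiniteAdeleRing (𝓞 K) K)ˣ) :
    {z' : (FiniteAdeleRing (𝓞 K) K)ˣ | ∀ v : HeightOneSpectrum (𝓞 K),
      Near Valued.v (v.valuation K (algebraMap (𝓞 K) K q)) (z.1 v) (z'.1 v)} ∈ 𝓝 z := by
  have h1 : Continuous fun z' : (FiniteAdeleRing (𝓞 K) K)ˣ => (z' * z⁻¹).1 :=
    Units.continuous_val.comp (continuous_id.mul continuous_const)
  have h2 : Continuous fun z' : (FiniteAdeleRing (𝓞 K) K)ˣ => ((z' * z⁻¹)⁻¹).1 :=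
    Units.continuous_val.comp (continuous_id.mul continuous_const).inv
  have ho := ((isOpen_near q hq).preimage h1).inter ((isOpen_near q hq).preimage h2)
  refine Filter.mem_of_superset (ho.mem_nhds ?_) ?_
  · constructor
    · change ∀ v, Valued.v ((z * z⁻¹).1 v - 1) ≤ _
      intro v
      rw [mul_inv_cancel]
      change Valued.v ((1 : v.adicCompletion K) - 1) ≤ _
      rw [sub_self, map_zero]
      exact zero_le
    · change ∀ v, Valued.v (((z * z⁻¹)⁻¹).1 v - 1) ≤ _
      intro v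
      rw [mul_inv_cancel, inv_one]
      change Valued.v ((1 : v.adicCompletion K) - 1) ≤ _
      rw [sub_self, map_zero]
      exact zero_le
  · rintro z' ⟨h3, h4⟩ v
    have h3' : Valued.v ((z' * z⁻¹).1 v - 1) ≤ v.valuation K (algebraMap (𝓞 K) K q) := h3 v
    have h4' : Valued.v (((z' * z⁻¹)⁻¹).1 v - 1) ≤ v.valuation K (algebraMap (𝓞 K) K q) := h4 v
    have hzz : z.1 v * (z⁻¹).1 v = 1 := by
      have e : (z.1 * (z⁻¹).1) v = (1 : FiniteAdeleRing (𝓞 K) K) v := by rw [Units.mul_inv]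
      exact e
    have hz0 : z.1 v ≠ 0 := left_ne_zero_of_mul_eq_one hzz
    have e1 : (z' * z⁻¹).1 v = z'.1 v / z.1 v := by
      rw [eq_div_iff hz0]
      change z'.1 v * (z⁻¹).1 v * z.1 v = _
      rw [mul_assoc, mul_comm _ (z.1 v), hzz, mul_one]
    have hprod : (z' * z⁻¹).1 v * ((z' * z⁻¹)⁻¹).1 v = 1 := by
      have e : ((z' * z⁻¹).1 * ((z' * z⁻¹)⁻¹).1) v = (1 : FiniteAdeleRing (𝓞 K) K) v := by
        rw [Units.mul_inv]
      exact e
    have hq1 : v.valuation K (algebraMap (𝓞 K) K q) ≤ 1 := v.valuation_le_one q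
    have hle : ∀ t : v.adicCompletion K, Valued.v (t - 1) ≤ 1 → Valued.v t ≤ 1 := by
      intro t ht
      have e : t = (t - 1) + 1 := by ring
      rw [e]
      refine (Valuation.map_add _ _ _).trans (max_le ht ?_)
      rw [map_one]
    have h5 := hle _ (h3'.trans hq1)
    have h6 := hle _ (h4'.trans hq1)
    have h7 := congrArg Valued.v hprod
    rw [map_mul, map_one] at h7
    rw [e1] at h3' h5 h7
    refine ⟨hz0, le_antisymm h5 ?_, h3'⟩
    calc (1 : ℤᵐ⁰) = Valued.v (z'.1 v / z.1 v) * Valued.v (((z' * z⁻¹)⁻¹).1 v) := h7.symm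
      _ ≤ Valued.v (z'.1 v / z.1 v) := mul_le_of_le_one_right' h6

end nhds

variable (F : Type) [Field F] [NumberField F]

/-- the algebra `𝔸 ⊗ F[X]/(P)` over the finite adeles `𝔸` of `F` -/
def AdelicAlgebra (P : F[X]) : Type := FiniteAdeleRing (𝓞 F) F ⊗[F] AdjoinRoot P

noncomputable instance (P : F[X]) : CommRing (AdelicAlgebra F P) :=
  inferInstanceAs (CommRing (FiniteAdeleRing (𝓞 F) F ⊗[F] AdjoinRoot P))

noncomputable instance (P : F[X]) : Algebra (FiniteAdeleRing (𝓞 F) F) (AdelicAlgebra F P) :=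
  inferInstanceAs (Algebra (FiniteAdeleRing (𝓞 F) F) (FiniteAdeleRing (𝓞 F) F ⊗[F] AdjoinRoot P))

/-- the topology of a finite free module over the ring of finite adeles -/
noncomputable instance (P : F[X]) : TopologicalSpace (AdelicAlgebra F P) :=
  moduleTopology (FiniteAdeleRing (𝓞 F) F) (AdelicAlgebra F P)

instance (P : F[X]) : IsModuleTopology (FiniteAdeleRing (𝓞 F) F) (AdelicAlgebra F P) := ⟨rfl⟩

end Pool.Agent.U36.HV
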